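import Pool.Agent.Run7.h742.AT.Meas

/-!
# MP_610fe3_an: Anosov diffeomorphisms that preserve an infinite measure
-/

set_option autoImplicit false

open scoped Manifold ContDiff Topology ENNReal
open Set Filter MeasureTheory

namespace Pool.Agent.Results.MP_610fe3_an.InfiniteInvariantMeasure

open Pool.Agent.H721R2 Pool.Agent.H789R2.AN

/-- The stable set of `x` for `g`: the points `y` such that the forward orbits of `x` and `y` are
asymptotic (for every neighbourhood `𝒰` of the diagonal, `gⁿ x` and `gⁿ y` are `𝒰`-close for all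
large `n`). The stable leaf of `x` for an Anosov diffeomorphism `f` is `stableSet f x`, the unstable
leaf is `stableSet f.symm x`. -/
def stableSet {M : Type*} [TopologicalSpace M] (g : M → M) (x : M) : Set M :=
  {y | ∀ 𝒰 ∈ 𝓝ˢ (diagonal M), ∀ᶠ n : ℕ in atTop, (g^[n] x, g^[n] y) ∈ 𝒰}

/-- Near the point `y` the measure `μ` is comparable to Lebesgue measure: there are a chart, a
neighbourhood `W` of `y` in the domain of this chart and a finite constant `K` such that
`K⁻¹ ν ≤ μ ≤ K ν` for the subsets of `W`. Here `ν` is a Haar (Lebesgue) measure of the model space. -/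
def LebesgueNear {E : Type*} [NormedAddCommGroup E] [NormedSpace ℝ E] [MeasurableSpace E]
    (ν : Measure E) {M : Type*} [TopologicalSpace M] [ChartedSpace E M] [MeasurableSpace M]
    (μ : Measure M) (y : M) : Prop :=
  ∃ (x₀ : M) (K : ℝ≥0∞) (W : Set M), K ≠ ⊤ ∧ IsOpen W ∧ y ∈ W ∧
    W ⊆ (extChartAt 𝓘(ℝ, E) x₀).source ∧ ∀ B ⊆ W, MeasurableSet B →
      ν (extChartAt 𝓘(ℝ, E) x₀ '' B) ≤ K * μ B ∧ μ B ≤ K * ν (extChartAt 𝓘(ℝ, E) x₀ '' B)

/-- `|det D(fᵏ)(p)|`, for a point `p` with `fᵏ(p) = p`. -/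
noncomputable def perJac (E : Type*) [NormedAddCommGroup E] [NormedSpace ℝ E]
    {M : Type*} [TopologicalSpace M] [ChartedSpace E M] (f : M → M) (k : ℕ) (p : M) : ℝ :=
  |(mfderiv 𝓘(ℝ, E) 𝓘(ℝ, E) (f^[k]) p : E →L[ℝ] E).det|

/-- **Anosov diffeomorphisms that preserve an infinite measure.**
Let `f` be a `C²` Anosov diffeomorphism of a closed connected smooth manifold `M`.

(1) Suppose that `f` preserves a Borel measure `μ` of `M`, of finite or infinite mass, such that
every unstable leaf contains a point near which `μ` is comparable to Lebesgue measure, or every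
stable leaf contains such a point. (For instance `μ` has a positive continuous density outside of a
closed set that contains no unstable leaf; nothing is assumed on `μ` elsewhere, it may be infinite on
all open sets that meet this closed set, as for the measures given by invariant volume forms with
poles or by degenerate invariant Poisson structures.) Then `f` is topologically transitive, and
`|det D(fᵏ)(p)| = 1` at all periodic points `p = fᵏ(p)` of `f`.

(2) Suppose that an open set `U` meets every unstable leaf and that `|det D(fᵏ)(p)| ≥ 1` at the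
periodic points `p = fᵏ(p)` which are in `U`, or that `U` meets every stable leaf and
`|det D(fᵏ)(p)| ≤ 1` at the periodic points in `U`. Then `f` is topologically transitive. -/
theorem result (E : Type*) [NormedAddCommGroup E] [NormedSpace ℝ E] [FiniteDimensional ℝ E]
    [MeasurableSpace E] [BorelSpace E] (ν : Measure E) [ν.IsAddHaarMeasure]
    (M : Type*) [TopologicalSpace M] [T2Space M] [CompactSpace M] [ConnectedSpace M]
    [MeasurableSpace M] [BorelSpace M]
    [ChartedSpace E M] [IsManifold 𝓘(ℝ, E) ∞ M] (f : Diffeomorph 𝓘(ℝ, E) 𝓘(ℝ, E) M M 1)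
    (hf2 : ContMDiff 𝓘(ℝ, E) 𝓘(ℝ, E) 2 f) (hf2' : ContMDiff 𝓘(ℝ, E) 𝓘(ℝ, E) 2 f.symm)
    (Es Eu : ∀ x : M, Submodule ℝ (TangentSpace 𝓘(ℝ, E) x)) (hA : IsAnosov f Es Eu) :
    (∀ μ : Measure M, MeasurePreserving f μ μ →
      ((∀ x, ∃ y ∈ stableSet f.symm x, LebesgueNear ν μ y) ∨
        ∀ x, ∃ y ∈ stableSet f x, LebesgueNear ν μ y) →
      TopTransitive f ∧ ∀ (k : ℕ) (p : M), 1 ≤ k → f^[k] p = p → perJac E f k p = 1) ∧
    ∀ U : Set M, IsOpen U →
      (((∀ x, ∃ y ∈ stableSet f.symm x, y ∈ U) ∧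
          ∀ p ∈ U, ∀ k : ℕ, 1 ≤ k → f^[k] p = p → 1 ≤ perJac E f k p) ∨
        ((∀ x, ∃ y ∈ stableSet f x, y ∈ U) ∧
          ∀ p ∈ U, ∀ k : ℕ, 1 ≤ k → f^[k] p = p → perJac E f k p ≤ 1)) →
      TopTransitive f := by
  have hA' : IsAnosov f.symm Eu Es := Pool.Agent.W740.TU.anosov_symm f Es Eu hA
  have hback : ∀ {k : ℕ} {p : M}, f^[k] p = p → f.symm^[k] p = p := by
    intro k p hkp
    have hfl : f.symm^[k] (f^[k] p) = p :=
      (Function.LeftInverse.iterate (f := f) (g := f.symm) f.symm_apply_apply k) p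
    rwa [hkp] at hfl
  have hforw : ∀ {k : ℕ} {p : M}, f.symm^[k] p = p → f^[k] p = p := by
    intro k p hkp
    have hfl : f^[k] (f.symm^[k] p) = p :=
      (Function.LeftInverse.iterate (f := f.symm) (g := f) f.apply_symm_apply k) p
    rwa [hkp] at hfl
  have htt : TopTransitive f.symm → TopTransitive f := by
    intro h U V hU hUn hV hVn
    obtain ⟨n, _, ⟨v, hv, rfl⟩, hx⟩ := h V U hV hVn hU hUn
    refine ⟨n, v, ⟨f.symm^[n] v, hx, ?_⟩, hv⟩
    exact (Function.LeftInverse.iterate (f := f.symm) (g := f) f.apply_symm_apply n) v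
  constructor
  · intro μ hμ hc
    -- the set of the points where `μ` is comparable to Lebesgue measure
    set U : Set M := {y | LebesgueNear ν μ y} with hUdef
    have hU : IsOpen U := by
      rw [isOpen_iff_mem_nhds]
      rintro y ⟨x₀, K, W, hK, hW, hy, hWs, hB⟩
      exact mem_of_superset (hW.mem_nhds hy) fun z hz => ⟨x₀, K, W, hK, hW, hz, hWs, hB⟩
    have hone : ∀ p ∈ U, ∀ k : ℕ, f^[k] p = p →
        Pool.Agent.Y321.PJ.perJac E f k p = 1 := by
      rintro p ⟨x₀, K, W, hK, hW, hy, hWs, hB⟩ k hkp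
      exact Run7.h742.AT.perJac_eq ν μ hK hW hWs hB f hf2 hf2' hμ hy hkp
    have hone' : ∀ p ∈ U, ∀ k : ℕ, f.symm^[k] p = p →
        Pool.Agent.Y321.PJ.perJac E f.symm k p = 1 := by
      intro p hp k hkp
      obtain ⟨-, h1, -⟩ := Run7.h742.AT.perJac_mul f (hforw hkp)
      rwa [hone p hp k (hforw hkp), mul_one] at h1
    rcases hc with hc | hc
    · obtain ⟨h1, h2, h3⟩ := Run7.h742.AT.main_loc f hf2 hf2' Es Eu hA U hU
        (fun x => by obtain ⟨y, hy, hy'⟩ := hc x; exact ⟨y, hy', hy⟩)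
        (fun p hp k _ hkp => (hone p hp k hkp).ge)
      refine ⟨h1, fun k p hk hkp => le_antisymm ?_ (h2 k p hk hkp)⟩
      exact h3 (fun p hp k _ hkp => (hone p hp k hkp).le) k p hk hkp
    · obtain ⟨h1, h2, h3⟩ := Run7.h742.AT.main_loc f.symm hf2' hf2 Eu Es hA' U hU
        (fun x => by obtain ⟨y, hy, hy'⟩ := hc x; exact ⟨y, hy', hy⟩)
        (fun p hp k _ hkp => (hone' p hp k hkp).ge)
      refine ⟨htt h1, fun k p hk hkp => ?_⟩
      have h4 : Pool.Agent.Y321.PJ.perJac E f.symm k p = 1 :=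
        le_antisymm (h3 (fun p hp k _ hkp => (hone' p hp k hkp).le) k p hk (hback hkp))
          (h2 k p hk (hback hkp))
      obtain ⟨-, h5, -⟩ := Run7.h742.AT.perJac_mul f hkp
      rwa [h4, one_mul] at h5
  · rintro U hU (⟨h1, h2⟩ | ⟨h1, h2⟩)
    · exact (Run7.h742.AT.main_loc f hf2 hf2' Es Eu hA U hU
        (fun x => by obtain ⟨y, hy, hy'⟩ := h1 x; exact ⟨y, hy', hy⟩) h2).1
    · refine htt (Run7.h742.AT.main_loc f.symm hf2' hf2 Eu Es hA' U hU
        (fun x => by obtain ⟨y, hy, hy'⟩ := h1 x; exact ⟨y, hy', hy⟩) ?_).1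
      intro p hp k hk hkp
      obtain ⟨h3, h4, -⟩ := Run7.h742.AT.perJac_mul f (hforw hkp)
      have h5 : Pool.Agent.Y321.PJ.perJac E f k p ≤ 1 := h2 p hp k hk (hforw hkp)
      have h6 : 0 < Pool.Agent.Y321.PJ.perJac E f.symm k p := by
        by_contra h7
        push Not at h7
        nlinarith
      nlinarith

end Pool.Agent.Results.MP_610fe3_an.InfiniteInvariantMeasure
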