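import Pool.Agent.Run7.h934.AD.LivMan

/-!
# MP_610fe3_an: transitivity and the cohomological equation
-/

set_option autoImplicit false

open scoped Manifold ContDiff Topology
open Set Filter

namespace Pool.Agent.Results.MP_610fe3_an.LivsicDichotomy

open Pool.Agent.H721R2 Pool.Agent.H789R2.AN

/-- `φ` is a continuous coboundary: `φ = u ∘ f - u` with `u` continuous. -/
def Coboundary {M : Type*} [TopologicalSpace M] (f : M → M) (φ : M → ℝ) : Prop :=
  ∃ u : M → ℝ, Continuous u ∧ ∀ x, φ x = u (f x) - u x

/-- The sums of `φ` over the periodic orbits of `f` are zero. -/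
def ZeroPeriodicSums {M : Type*} (f : M → M) (φ : M → ℝ) : Prop :=
  ∀ (p : M) (n : ℕ), f^[n] p = p → birkhoffSum f φ n p = 0

/-- The Walters property (for a continuous `φ`): the Birkhoff sums of `φ` along two pieces of orbits
of any common length `n` differ by at most `η`, if the two pieces are `𝒰`-close, where the
neighbourhood `𝒰` of the diagonal depends only on `η`. -/
def Walters {M : Type*} [TopologicalSpace M] (f : M → M) (φ : M → ℝ) : Prop :=
  ∀ η > 0, ∃ 𝒰 ∈ 𝓝ˢ (diagonal M), ∀ (n : ℕ) (x y : M),
    (∀ k < n, (f^[k] x, f^[k] y) ∈ 𝒰) → |birkhoffSum f φ n x - birkhoffSum f φ n y| ≤ η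

/-- `φ` is Hölder continuous: every point `x₀` has a neighbourhood on which `φ` satisfies a Hölder
condition (with some exponent) in the preferred chart at `x₀`. -/
def Hoelder (E : Type*) [NormedAddCommGroup E] [NormedSpace ℝ E] {M : Type*} [TopologicalSpace M]
    [ChartedSpace E M] (φ : M → ℝ) : Prop :=
  ∀ x₀ : M, ∃ W ∈ 𝓝 x₀, ∃ C α : ℝ, 0 < α ∧ ∀ x ∈ W, ∀ y ∈ W,
    |φ x - φ y| ≤ C * ‖extChartAt 𝓘(ℝ, E) x₀ x - extChartAt 𝓘(ℝ, E) x₀ y‖ ^ α

/-- The wandering set of `f`: the points with a neighbourhood `W` disjoint from all its images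
`fⁿ(W)`, `n ≥ 1`. -/
def wandering {M : Type*} [TopologicalSpace M] (f : M → M) : Set M :=
  {x | ∃ W ∈ 𝓝 x, ∀ n : ℕ, 1 ≤ n → Disjoint (f^[n] '' W) W}

/-- **Transitivity of an Anosov diffeomorphism is a property of its cohomological equation.** Let
`f` be a `C¹` Anosov diffeomorphism of a closed connected smooth manifold `M`. The following are
equivalent.

1. `f` is topologically transitive.
2. Livsic's theorem holds for `f` and all continuous functions with the Walters property: if the sums
   of `φ` over the periodic orbits are zero, then `φ` is a continuous coboundary.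
3. The same for all Hölder continuous functions.
4. The theorem of Gottschalk and Hedlund holds for `f` and the `C^∞` functions: if the Birkhoff sums
   of `φ` are bounded, uniformly in the length and in the point, then `φ` is a continuous coboundary.
5. The space of obstructions to the cohomological equation for the `C^∞` functions `φ` supported in
   the wandering set of `f` is finite-dimensional, even if the solutions `u` are required to be
   continuous at the periodic points only: there are finitely many functions `h₁, …, h_m` such that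
   every such `φ` is `∑ aᵢ hᵢ + u ∘ f - u` for some real numbers `aᵢ` and some function `u`
   (continuous or not, bounded or not) that is continuous at all periodic points.

So there is a dichotomy: either all the functions in 2 are coboundaries of continuous functions, or
the `C^∞` functions supported in the wandering set (they have bounded Birkhoff sums, and zero sums
over the periodic orbits) have infinite codimension modulo the coboundaries of functions continuous
at the periodic points. -/
theorem result (E : Type*) [NormedAddCommGroup E] [NormedSpace ℝ E] [FiniteDimensional ℝ E]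
    (M : Type*) [TopologicalSpace M] [T2Space M] [CompactSpace M] [ConnectedSpace M]
    [ChartedSpace E M] [IsManifold 𝓘(ℝ, E) ∞ M] (f : Diffeomorph 𝓘(ℝ, E) 𝓘(ℝ, E) M M 1)
    (Es Eu : ∀ x : M, Submodule ℝ (TangentSpace 𝓘(ℝ, E) x)) (hA : IsAnosov f Es Eu) :
    List.TFAE [TopTransitive f,
      ∀ φ : M → ℝ, Continuous φ → Walters f φ → ZeroPeriodicSums f φ → Coboundary f φ,
      ∀ φ : M → ℝ, Hoelder E φ → ZeroPeriodicSums f φ → Coboundary f φ,
      ∀ φ : M → ℝ, ContMDiff 𝓘(ℝ, E) 𝓘(ℝ, ℝ) ∞ φ →
        (∃ C : ℝ, ∀ (n : ℕ) (x : M), |birkhoffSum f φ n x| ≤ C) → Coboundary f φ,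
      ∃ (m : ℕ) (h : Fin m → M → ℝ), ∀ φ : M → ℝ, ContMDiff 𝓘(ℝ, E) 𝓘(ℝ, ℝ) ∞ φ →
        tsupport φ ⊆ wandering f →
        ∃ (a : Fin m → ℝ) (u : M → ℝ), (∀ p ∈ Function.periodicPts f, ContinuousAt u p) ∧
          ∀ x, φ x = ∑ i, a i * h i x + (u (f x) - u x)] :=
  Pool.Agent.Run7.h934.AD.man_livsic f Es Eu hA

end Pool.Agent.Results.MP_610fe3_an.LivsicDichotomy
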