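import Pool.Agent.Run7.h575.HF.A5

/-!
# MP_610fe3_an: the repellers and attractors of a nontransitive Anosov diffeomorphism are sensitive

Library: starting files Y330 (bounded holonomies imply transitivity and a global product
structure), TH289, H789R2, TH304; `Run7/h934/AD` of helper934 (density of the leaves);
`Run7/h575/HF` of helper575 (one stable point of a minimal set is enough; an orbit which is not
meagre gives a stable point, with a weak form of the Effros theorem).
-/

set_option autoImplicit false

open scoped Manifold ContDiff Topology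
open Set Filter

namespace Pool.Agent.Results.MP_610fe3_an.SensitiveMinimalSets

open Pool.Agent.H721R2 Pool.Agent.H789R2.AN Pool.Agent.Y330.N Pool.Agent.TH289.K

/-- The stable leaf of `x` for the map `f`: the points whose forward orbit is asymptotic to that of
`x`. -/
def leaf {M : Type*} [TopologicalSpace M] (f : M → M) (x : M) : Set M :=
  {y | Tendsto (fun n : ℕ => (f^[n] x, f^[n] y)) atTop (𝓝ˢ (diagonal M))}

/-- The orbit of `z` under the group of all the homeomorphisms of `M` that map every stable leaf of
`f` onto a stable leaf of `f`. -/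
def leafOrbit {M : Type*} [TopologicalSpace M] (f : M → M) (z : M) : Set M :=
  {y | ∃ φ : M ≃ₜ M, (∀ a b, b ∈ leaf f a ↔ φ b ∈ leaf f (φ a)) ∧ φ z = y}

/-- `R` is nonempty, closed, invariant under `f` (`f x ∈ R ↔ x ∈ R`) and a union of stable leaves
of `f`. -/
def Saturated {M : Type*} [TopologicalSpace M] (f : M → M) (R : Set M) : Prop :=
  IsClosed R ∧ R.Nonempty ∧ (∀ x, f x ∈ R ↔ x ∈ R) ∧ ∀ x ∈ R, leaf f x ⊆ R

/-- `R` is a minimal nonempty closed invariant union of stable leaves of `f`.  (There are such sets;
for an Anosov diffeomorphism `f` they are the transitive repellers of `f`, and `R = M` if `f` is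
topologically transitive.) -/
def MinimalSaturated {M : Type*} [TopologicalSpace M] (f : M → M) (R : Set M) : Prop :=
  Saturated f R ∧ ∀ R', Saturated f R' → R' ⊆ R → R' = R

/-- The holonomies along the stable leaves of `g` are sensitive at `x`: for all integers `i`, `j`
there are a stable path `α` of `g` from `x` and a stable path `β` of `g` with `β s` in the unstable
leaf of `α s` for all `s` (uniformly in `s`), such that `α 0`, `β 0` have level at most `i` and
`α 1`, `β 1` have level greater than `j`. Here the level of two points `y`, `z` of an unstable leaf of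
`g` is at most `i` if `g⁻ⁿ y` and `g⁻ⁿ z` are `𝒰`-close for all integers `n ≥ i` (`ZLevel`; a dynamical
version of the logarithm of their distance in the leaf). -/
def Sensitive {M : Type*} [TopologicalSpace M] (g : M ≃ₜ M) (𝒰 : Set (M × M)) (x : M) : Prop :=
  ∀ i j : ℤ, ∃ α β : C(unitInterval, M), α 0 = x ∧ StablePath g α ∧ StablePath g β ∧
    UnstablyRelated g α β ∧ ZLevel g 𝒰 i (α 0) (β 0) ∧ ¬ ZLevel g 𝒰 j (α 1) (β 1)

/-- **Either `f` is transitive or all its minimal repellers and attractors are sensitive and not
homogeneous.** Let `f` be a `C¹` Anosov diffeomorphism of a closed connected manifold `M`. There is a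
neighbourhood `𝒰₀` of the diagonal of `M × M` such that the following holds for every neighbourhood
`𝒰 ⊆ 𝒰₀` of the diagonal. Either `f` is topologically transitive, or for `g = f` and for `g = f⁻¹`,
for every minimal nonempty closed invariant union `R` of stable leaves of `g` and for EVERY point
`x` of `R`

* the holonomies along the stable leaves of `g` are sensitive at `x`: along paths in the leaf of `x`
  they expand arbitrarily small displacements to arbitrarily large ones;
* the orbit of `x` under the group of all homeomorphisms of `M` which preserve the foliation into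
  stable leaves of `g` (and are not related to `f` in any other way) is meagre.

So `f` is transitive if a single point of a single such set `R` is stable for the holonomies, at a
single scale. -/
theorem result (E : Type*) [NormedAddCommGroup E] [NormedSpace ℝ E] [FiniteDimensional ℝ E]
    (M : Type*) [TopologicalSpace M] [T2Space M] [CompactSpace M] [ConnectedSpace M]
    [ChartedSpace E M] [IsManifold 𝓘(ℝ, E) ∞ M] (f : Diffeomorph 𝓘(ℝ, E) 𝓘(ℝ, E) M M 1)
    (Es Eu : ∀ x : M, Submodule ℝ (TangentSpace 𝓘(ℝ, E) x)) (hA : IsAnosov f Es Eu) :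
    ∃ 𝒰₀ ∈ 𝓝ˢ (diagonal M), ∀ 𝒰 ∈ 𝓝ˢ (diagonal M), 𝒰 ⊆ 𝒰₀ →
      TopTransitive f ∨
      ∀ g : M ≃ₜ M, (g = f.toHomeomorph ∨ g = f.toHomeomorph.symm) →
        ∀ R, MinimalSaturated g R → ∀ x ∈ R, Sensitive g 𝒰 x ∧ IsMeagre (leafOrbit g x) := by
  obtain ⟨𝒰₀, h1, h2⟩ := Run7.h575.HF.man_fol f Es Eu hA
  refine ⟨𝒰₀, h1, fun 𝒰 h𝒰 hsub => or_iff_not_imp_left.2 fun hcov g hg R hR x hx => ⟨?_, ?_⟩⟩
  · intro i j
    obtain ⟨h3, -, h4⟩ := h2 𝒰 h𝒰 hsub g hg
    have h5 : (∃ R, Run7.h575.HF.MinSatur g R ∧ ∃ x ∈ R, ∃ j, Run7.h575.HF.StableAt g 𝒰 j x) →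
      BoundedHolonomy g 𝒰 := (h3.out 2 0).1
    by_contra hcon
    push Not at hcon
    exact hcov (h4 (h5 ⟨R, hR, x, hx, j, i, fun α β a1 a2 a3 a4 a5 =>
      hcon α β a1 a2 a3 a4 a5⟩)).1
  · obtain ⟨-, h3, h4⟩ := h2 𝒰 h𝒰 hsub g hg
    by_contra hcon
    exact hcov (h4 (h3 (Or.inr (Or.inr ⟨R, hR, x, hx, hcon⟩)))).1

end Pool.Agent.Results.MP_610fe3_an.SensitiveMinimalSets
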