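import Pool.Agent.Run7.h491.AC.Main

set_option autoImplicit false

open scoped Manifold ContDiff Topology
open Set Filter

namespace Pool.Agent.Results.MP_610fe3_an.UniformlyClose

open Pool.Agent.H721R2 Pool.Agent.H789R2.AN

/-- **Uniformly close Anosov diffeomorphisms.**
Let `M` be a closed connected smooth manifold, with any metric inducing its topology.

* Let `g` be a `C¹` Anosov diffeomorphism of `M` and `ε > 0`.  There is `δ > 0` such that for
  *every* `C¹` Anosov diffeomorphism `f` of `M` with `d(f(x), g(x)) < δ` for all `x` (nothing is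
  assumed about the derivative of `f`, its invariant splitting or its constants) there is a
  continuous map `h` with `h ∘ f = g ∘ h` and `d(h(x), x) < ε` for all `x` such that `h` maps the
  closure of the set of periodic points of `f` bijectively onto the closure of the set of periodic
  points of `g` and maps no other point into it, `f` is topologically transitive if and only if `g`
  is, and if `g` is topologically transitive then `h` is a homeomorphism.
* Consequently in a family `(f_t)` of `C¹` Anosov diffeomorphisms of `M` with `(t, x) ↦ f_t(x)`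
  continuous and with a connected parameter space (the derivatives need not depend continuously on
  `t`), if one `f_t` is topologically transitive, then all are, and they are all topologically
  conjugate. -/
theorem result (E : Type*) [NormedAddCommGroup E] [NormedSpace ℝ E] [FiniteDimensional ℝ E]
    (M : Type*) [MetricSpace M] [CompactSpace M] [ConnectedSpace M]
    [ChartedSpace E M] [IsManifold 𝓘(ℝ, E) ∞ M] :
    (∀ (g : Diffeomorph 𝓘(ℝ, E) 𝓘(ℝ, E) M M 1)
      (Es Eu : ∀ x : M, Submodule ℝ (TangentSpace 𝓘(ℝ, E) x)), IsAnosov g Es Eu →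
      ∀ ε > 0, ∃ δ > 0, ∀ (f : Diffeomorph 𝓘(ℝ, E) 𝓘(ℝ, E) M M 1)
        (Es' Eu' : ∀ x : M, Submodule ℝ (TangentSpace 𝓘(ℝ, E) x)), IsAnosov f Es' Eu' →
        (∀ x, dist (f x) (g x) < δ) →
        ∃ h : C(M, M), (∀ x, h (f x) = g (h x)) ∧ (∀ x, dist (h x) x < ε) ∧
          BijOn h (closure (Function.periodicPts f)) (closure (Function.periodicPts g)) ∧
          h ⁻¹' closure (Function.periodicPts g) = closure (Function.periodicPts f) ∧
          (TopTransitive f ↔ TopTransitive g) ∧
          (TopTransitive g → ∃ H : M ≃ₜ M, ∀ x, H x = h x)) ∧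
    ∀ (T : Type*) [TopologicalSpace T] [ConnectedSpace T]
      (f : T → Diffeomorph 𝓘(ℝ, E) 𝓘(ℝ, E) M M 1)
      (Es Eu : T → ∀ x : M, Submodule ℝ (TangentSpace 𝓘(ℝ, E) x)),
      (∀ t, IsAnosov (f t) (Es t) (Eu t)) → Continuous (fun p : T × M => f p.1 p.2) →
      ∀ t₀, TopTransitive (f t₀) →
        ∀ t, TopTransitive (f t) ∧ ∃ H : M ≃ₜ M, ∀ x, H (f t x) = f t₀ (H x) := by
  refine ⟨fun g Es Eu hg ε hε => ?_, fun T _ _ f Es Eu hA hc t₀ h0 t =>
    Pool.Agent.Run7.h491.AC.fam_main f Es Eu hA hc t₀ h0 t⟩
  obtain ⟨δ, hδ, h1⟩ := Pool.Agent.Run7.h491.AC.met_main g Es Eu hg ε hε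
  refine ⟨δ, hδ, fun f Es' Eu' hf hclose => ?_⟩
  obtain ⟨h, hc, h2⟩ := h1 f Es' Eu' hf hclose
  exact ⟨⟨h, hc⟩, h2⟩

end Pool.Agent.Results.MP_610fe3_an.UniformlyClose
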